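import Pool.Agent.H55.CG.Targets

/-!
# PRE: the exponential moments of a weighted sum of the charges
-/

set_option autoImplicit false

open MeasureTheory ProbabilityTheory Filter Topology
open Pool.Agent.H95 Pool.Agent.H95.Cop Pool.Agent.H55.CG

namespace Pool.Agent.H17.CG

/-- PRE: exponential moments of weighted sums -/
theorem pf_PRE : T_PRE := by
  intro ν _ hi c N
  induction N with
  | zero => simp
  | succ n ih =>
    obtain ⟨i1, i2⟩ := ih
    have hdep : DepLt n (fun x : ℕ → ℝ => Real.exp (∑ i ∈ Finset.range n, c i * x i)) := by
      intro x x' h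
      beta_reduce
      congr 1
      apply Finset.sum_congr rfl
      intro i hi
      rw [h i (Finset.mem_range.mp hi)]
    have e : ∀ x : ℕ → ℝ, Real.exp (∑ i ∈ Finset.range (n + 1), c i * x i) =
        Real.exp (∑ i ∈ Finset.range n, c i * x i) *
        (fun x' : ℕ → ℝ => Real.exp (c n * x' 0)) (shift n x) := by
      intro x
      simp only [shift_apply, zero_add]
      rw [Finset.sum_range_succ, Real.exp_add]
    simp_rw [e]
    rw [Finset.prod_range_succ]
    constructor
    · exact integrable_mul_shift ν hdep i1 (integrable_eval ν (hi (c n)) 0)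
    · rw [integral_mul_shift ν hdep i1.aestronglyMeasurable
        (integrable_eval ν (hi (c n)) 0).aestronglyMeasurable, i2, integral_eval ν (hi (c n)) 0]
      rfl

end Pool.Agent.H17.CG
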