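import Pool.Agent.H55.CG.Targets

/-!
# SCL: higher moments of a pattern
-/

set_option autoImplicit false

open MeasureTheory ProbabilityTheory Filter Topology
open Pool.Agent.H95 Pool.Agent.H95.Cop Pool.Agent.H55.CG

namespace Pool.Agent.H17.CG

private theorem ff_nonneg' (hGGS : T_GGS) (K : PMF ℕ) (ℓ : ℕ) (hℓ : 1 ≤ ℓ) (L : List (ℕ × ℕ)) :
    ∀ x : ℕ → ℝ, 0 ≤ ff K ℓ L x := by
  induction L with
  | nil => intro x; simp [ff]
  | cons p L ih =>
    intro x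
    simp only [ff]
    exact mul_nonneg (mul_nonneg ((hGGS K ℓ hℓ).2.1 _ _ _ _) ((hGGS K ℓ hℓ).2.1 _ _ _ _)) (ih _)

private theorem dep_rpow {t : ℕ} {f : (ℕ → ℝ) → ℝ} (hf : DepLt t f) (s : ℝ) :
    DepLt t (fun x => f x ^ s) := by
  intro x x' h
  beta_reduce
  rw [hf x x' h]

private theorem ff_pow (hSCG : T_SCG) (hGIN : T_GIN) (hMSG : T_MSG) (hGGS : T_GGS)
    (K : PMF ℕ) (ν : Measure ℝ) [IsProbabilityMeasure ν]
    (hi : ∀ t : ℝ, Integrable (fun z => Real.exp (t * z)) ν) (s : ℝ) (q R ℓ : ℕ)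
    (hs : 0 < s) (hq : 1 ≤ q) (hℓ : 1 ≤ ℓ) (L : List (ℕ × ℕ)) (hL : okL q R L) :
    Integrable (fun x => ff K ℓ L x ^ s) (iid ν) ∧ ∀ D : ℝ, 1 ≤ s → 1 ≤ D → Mo ν s ^ ℓ ≤ D →
    Mo ν (s / 2) ≤ 1 →
    ∫ x, ff K ℓ L x ^ s ∂(iid ν) ≤ D ^ (2 * tot L + 2 * L.length) := by
  induction L with
  | nil =>
    constructor
    · simp only [ff, Real.one_rpow]
      exact integrable_const _
    · intro D _ hD _ _
      simp [ff, tot]
  | cons p L ih =>
    obtain ⟨ih1, ih2⟩ := ih (fun p hp => hL p (List.mem_cons_of_mem _ hp))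
    obtain ⟨hp1, -, hp2, -⟩ := hL p (List.mem_cons_self)
    have hn1 : 1 ≤ p.1 := by omega
    have hn2 : 1 ≤ p.2 := by omega
    have hg1 := (hGGS K ℓ hℓ).2.1 false p.1 true
    have hg2 := (hGGS K ℓ hℓ).2.1 true p.2 false
    have hf := ff_nonneg' hGGS K ℓ hℓ L
    have e : ∀ x : ℕ → ℝ, ff K ℓ (p :: L) x ^ s = gg K ℓ false p.1 true x ^ s *
        (fun y : ℕ → ℝ => gg K ℓ true p.2 false y ^ s *
          (fun z : ℕ → ℝ => ff K ℓ L z ^ s) (shift (2 * p.2 * ℓ) y)) (shift (2 * p.1 * ℓ) x) := by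
      intro x
      simp only [ff]
      rw [shift_shift, Real.mul_rpow (mul_nonneg (hg1 _) (hg2 _)) (hf _),
        Real.mul_rpow (hg1 _) (hg2 _), mul_assoc]
      have h : 2 * (p.1 + p.2) * ℓ = 2 * p.2 * ℓ + 2 * p.1 * ℓ := by ring
      rw [h]
    have d1 := dep_rpow (hMSG K ℓ q false true p.1).2.2.1 s
    have d2 := dep_rpow (hMSG K ℓ q true false p.2).2.2.1 s
    have i1 := hGIN K ν hi s ℓ false true p.1 hs hℓ hn1
    have i2 := hGIN K ν hi s ℓ true false p.2 hs hℓ hn2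
    have j2 := integrable_mul_shift ν d2 i2 ih1
    simp_rw [e]
    constructor
    · exact integrable_mul_shift ν d1 i1 j2
    · intro D h1s hD hM hM2
      rw [integral_mul_shift ν d1 i1.aestronglyMeasurable j2.aestronglyMeasurable,
        integral_mul_shift ν d2 i2.aestronglyMeasurable ih1.aestronglyMeasurable]
      have b1 := hSCG K ν hi s D ℓ false true p.1 h1s hD hℓ hn1 hM hM2
      have b2 := hSCG K ν hi s D ℓ true false p.2 h1s hD hℓ hn2 hM hM2
      have b3 := ih2 D h1s hD hM hM2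
      have hexp : 2 * tot (p :: L) + 2 * (p :: L).length =
          (2 * p.1 + 1) + ((2 * p.2 + 1) + (2 * tot L + 2 * L.length)) := by
        simp only [tot, List.length_cons]; ring
      rw [hexp, pow_add, pow_add D (2 * p.2 + 1)]
      have hD0 : (0 : ℝ) ≤ D := by linarith
      have n2 : 0 ≤ ∫ x, gg K ℓ true p.2 false x ^ s ∂(iid ν) :=
        integral_nonneg fun x => Real.rpow_nonneg (hg2 x) s
      have n3 : 0 ≤ ∫ x, ff K ℓ L x ^ s ∂(iid ν) :=
        integral_nonneg fun x => Real.rpow_nonneg (hf x) s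
      exact mul_le_mul b1 (mul_le_mul b2 b3 n3 (pow_nonneg hD0 _)) (mul_nonneg n2 n3)
        (pow_nonneg hD0 _)

/-- SCL: higher moments of a pattern, and integrability -/
theorem pf_SCL (hSCG : T_SCG) (hGIN : T_GIN) (hMSG : T_MSG) (_hMSL : T_MSL) (hGGS : T_GGS) :
    T_SCL := by
  intro K ν _ hi s q R ℓ hs hq hℓ L hL
  obtain ⟨f1, f2⟩ := ff_pow hSCG hGIN hMSG hGGS K ν hi s q R ℓ hs hq hℓ L hL
  have hg := (hGGS K ℓ hℓ).2.1 false 1 false
  have hf := ff_nonneg' hGGS K ℓ hℓ L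
  have d1 := dep_rpow (hMSG K ℓ q false false 1).2.2.1 s
  have i1 := hGIN K ν hi s ℓ false false 1 hs hℓ le_rfl
  have e : ∀ x : ℕ → ℝ, FB K ℓ L x ^ s = gg K ℓ false 1 false x ^ s *
      (fun z : ℕ → ℝ => ff K ℓ L z ^ s) (shift (2 * 1 * ℓ) x) := by
    intro x
    simp only [FB]
    rw [Real.mul_rpow (hg _) (hf _), mul_one]
  simp_rw [e]
  constructor
  · exact integrable_mul_shift ν d1 i1 f1
  · intro D h1s hD hM hM2
    rw [integral_mul_shift ν d1 i1.aestronglyMeasurable f1.aestronglyMeasurable]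
    have b1 := hSCG K ν hi s D ℓ false false 1 h1s hD hℓ le_rfl hM hM2
    have b2 := f2 D h1s hD hM hM2
    have hexp : 2 * tot L + 2 * L.length + 3 = (2 * 1 + 1) + (2 * tot L + 2 * L.length) := by ring
    rw [hexp, pow_add]
    have n2 : 0 ≤ ∫ x, ff K ℓ L x ^ s ∂(iid ν) :=
      integral_nonneg fun x => Real.rpow_nonneg (hf x) s
    exact mul_le_mul b1 b2 n2 (pow_nonneg (by linarith) _)

end Pool.Agent.H17.CG
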